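import Mathlib

set_option autoImplicit false

namespace Pool.Agent.Results.MP_a9ea17_co.Full

open Finset

def nxt (k j : ℕ) : ℕ := if j + 1 = k then 0 else j + 1

def NZ (k : ℕ) (v : ℤ) : Prop :=
  v ≠ 0 ∧ v ≠ 4 * (k : ℤ) + 1 ∧ v ≠ -(4 * (k : ℤ) + 1) ∧ -(8 * (k : ℤ) + 2) < v ∧ v < 8 * (k : ℤ) + 2

def G (k : ℕ) (c : ℕ) (v : ℤ) : Prop :=
  (c : ℤ) = v ∨ (c : ℤ) = -v ∨ (c : ℤ) = v + (4 * (k : ℤ) + 1) ∨ (c : ℤ) = -v + (4 * (k : ℤ) + 1) ∨
    (c : ℤ) = v - (4 * (k : ℤ) + 1) ∨ (c : ℤ) = -v - (4 * (k : ℤ) + 1)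

lemma nxt_eq (k j : ℕ) (hj : j < k) : (j + 1) % k = nxt k j := by
  unfold nxt
  split_ifs with h
  · rw [h, Nat.mod_self]
  · exact Nat.mod_eq_of_lt (by omega)

lemma tz (k : ℕ) : ((4 * (k : ℤ) + 1 : ℤ) : ZMod (4 * k + 1)) = 0 := by
  have := ZMod.natCast_self (4 * k + 1)
  push_cast at this ⊢
  exact this

lemma NZ_ne (k : ℕ) (v : ℤ) (h : NZ k v) : (v : ZMod (4 * k + 1)) ≠ 0 := by
  intro h0
  rw [ZMod.intCast_zmod_eq_zero_iff_dvd] at h0
  obtain ⟨m, hm⟩ := h0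
  obtain ⟨h1, h2, h3, h4, h5⟩ := h
  push_cast at hm
  have hk : (0 : ℤ) ≤ k := Int.natCast_nonneg k
  have a1 : m < 2 := by
    by_contra hc
    have : (4 * (k : ℤ) + 1) * 2 ≤ (4 * (k : ℤ) + 1) * m := mul_le_mul_of_nonneg_left (by omega) (by omega)
    omega
  have a2 : -2 < m := by
    by_contra hc
    have : (4 * (k : ℤ) + 1) * m ≤ (4 * (k : ℤ) + 1) * (-2) := mul_le_mul_of_nonneg_left (by omega) (by omega)
    omega
  interval_cases m <;> omega

lemma G_eq (k c : ℕ) (v : ℤ) (h : G k c v) :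
    (c : ZMod (4 * k + 1)) = (v : ZMod (4 * k + 1)) ∨ (c : ZMod (4 * k + 1)) = -(v : ZMod (4 * k + 1)) := by
  have e : (c : ZMod (4 * k + 1)) = ((c : ℤ) : ZMod (4 * k + 1)) := by push_cast; rfl
  rw [e]
  rcases h with h | h | h | h | h | h <;> rw [h]
  · left; rfl
  · right; rw [Int.cast_neg]
  · left; rw [Int.cast_add, tz, add_zero]
  · right; rw [Int.cast_add, tz, add_zero, Int.cast_neg]
  · left; rw [Int.cast_sub, tz, sub_zero]
  · right; rw [Int.cast_sub, tz, sub_zero, Int.cast_neg]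

/-- The statement of Q1 for a given `k`. -/
def Q (k : ℕ) : Prop :=
  ∃ x : ℕ → ZMod (4 * k + 1), (∀ i < k, x i ≠ 0) ∧
    {z : ZMod (4 * k + 1) | z ≠ 0} =
      (⋃ i ∈ Set.Iio k, {x i, -x i, x i + x ((i + 1) % k), -(x i + x ((i + 1) % k))}) ∧
    Nat.gcd (∑ i ∈ range k, x i).val (4 * k + 1) = 1

lemma finish (k : ℕ) (y : ℕ → ℤ)
    (hnz : ∀ j < k, NZ k (y j) ∧ NZ k (y j + y (nxt k j)))
    (hcov : ∀ v : ℕ, 1 ≤ v → v ≤ 2 * k → ∃ j < k, G k v (y j) ∨ G k v (y j + y (nxt k j)))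
    (u w : ℤ) (hs : u * (∑ i ∈ range k, y i) = 1 + w * (4 * (k : ℤ) + 1)) : Q k := by
  refine ⟨fun i => (y i : ZMod (4 * k + 1)), fun i hi => NZ_ne k _ (hnz i hi).1, ?_, ?_⟩
  · ext z
    simp only [Set.mem_setOf_eq, Set.mem_iUnion, Set.mem_Iio, Set.mem_insert_iff,
      Set.mem_singleton_iff, exists_prop]
    constructor
    · intro hz
      have key : ∀ v : ℕ, 1 ≤ v → v ≤ 2 * k → ∀ z : ZMod (4 * k + 1), (z = v ∨ z = -(v : ZMod (4 * k + 1))) →
          ∃ i < k, z = (y i : ZMod (4 * k + 1)) ∨ z = -(y i : ZMod (4 * k + 1)) ∨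
            z = (y i : ZMod (4 * k + 1)) + (y ((i + 1) % k) : ZMod (4 * k + 1)) ∨
            z = -((y i : ZMod (4 * k + 1)) + (y ((i + 1) % k) : ZMod (4 * k + 1))) := by
        intro v h1 h2 z hz
        obtain ⟨j, hj, h⟩ := hcov v h1 h2
        refine ⟨j, hj, ?_⟩
        rw [nxt_eq k j hj, ← Int.cast_add]
        rcases h with h | h <;> rcases G_eq k v _ h with h | h <;> rcases hz with hz | hz <;>
          simp [hz, h]
      have hv : z.val < 4 * k + 1 := ZMod.val_lt z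
      have hv0 : z.val ≠ 0 := by rwa [Ne, ZMod.val_eq_zero]
      by_cases hc : z.val ≤ 2 * k
      · exact key z.val (by omega) hc z (Or.inl (ZMod.natCast_zmod_val z).symm)
      · refine key (4 * k + 1 - z.val) (by omega) (by omega) z (Or.inr ?_)
        rw [Nat.cast_sub hv.le, ZMod.natCast_self, ZMod.natCast_zmod_val]
        simp
    · rintro ⟨i, hi, h⟩
      have a := NZ_ne k _ (hnz i hi).1
      have b := NZ_ne k _ (hnz i hi).2
      rw [← nxt_eq k i hi, Int.cast_add] at b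
      rcases h with h | h | h | h <;> rw [h]
      · exact a
      · exact neg_ne_zero.mpr a
      · exact b
      · exact neg_ne_zero.mpr b
  · have e : (∑ i ∈ range k, (y i : ZMod (4 * k + 1))) * (u : ZMod (4 * k + 1)) = 1 := by
      have := congrArg (fun a : ℤ => (a : ZMod (4 * k + 1))) hs
      simp only [Int.cast_mul, Int.cast_add, Int.cast_sum, Int.cast_one] at this
      have t0 := tz k
      push_cast at this t0
      rw [t0, mul_zero, add_zero] at this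
      rw [← this]; ring
    have hu : IsUnit (∑ i ∈ range k, (y i : ZMod (4 * k + 1))) := IsUnit.of_mul_eq_one _ e
    obtain ⟨U, hU⟩ := hu
    have := ZMod.val_coe_unit_coprime U
    rw [hU] at this
    exact this

lemma segP (p q : ℤ) (m : ℕ) :
    ∑ j ∈ range (2 * m), (if j % 2 = 0 then p + ((j / 2 : ℕ) : ℤ) else q + ((j / 2 : ℕ) : ℤ)) =
      m * (p + q) + m * (m - 1) := by
  induction m with
  | zero => simp
  | succ m ih =>
    rw [show 2 * (m + 1) = 2 * m + 1 + 1 by ring, sum_range_succ, sum_range_succ, ih,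
      if_pos (by omega), if_neg (by omega), show 2 * m / 2 = m by omega,
      show (2 * m + 1) / 2 = m by omega]
    push_cast; ring

lemma segM (p q : ℤ) (m : ℕ) :
    ∑ j ∈ range (2 * m), (if j % 2 = 0 then p - ((j / 2 : ℕ) : ℤ) else q - ((j / 2 : ℕ) : ℤ)) =
      m * (p + q) - m * (m - 1) := by
  induction m with
  | zero => simp
  | succ m ih =>
    rw [show 2 * (m + 1) = 2 * m + 1 + 1 by ring, sum_range_succ, sum_range_succ, ih,
      if_pos (by omega), if_neg (by omega), show 2 * m / 2 = m by omega,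
      show (2 * m + 1) / 2 = m by omega]
    push_cast; ring

def y0 (n j : ℕ) : ℤ :=
  if j + 1 < 2 * n then (if j % 2 = 0 then (5 * (n : ℤ) + 2) + ((j / 2 : ℕ) : ℤ) else ((-7) * (n : ℤ) - 1) + ((j / 2 : ℕ) : ℤ)) else
  if j + 3 < 4 * n then (if (j + 1 - 2 * n) % 2 = 0 then (8 * (n : ℤ) + 0) - (((j + 1 - 2 * n) / 2 : ℕ) : ℤ) else ((-4) * (n : ℤ) - 1) - (((j + 1 - 2 * n) / 2 : ℕ) : ℤ)) else
  if j + 2 < 4 * n then ((-6) * (n : ℤ) - 2) else
  if j + 1 < 4 * n then (2 * (n : ℤ) + 2) else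
  (0 * (n : ℤ) - 1)

lemma y0_0e (n j : ℕ) (hn : 2 ≤ n) (h1 : 0 * n + 0 ≤ j) (h2 : j + 1 < 2 * n) (h3 : j % 2 = 0) :
    2 * y0 n j = (10 * (n : ℤ) + 4) + (j : ℤ) := by
  unfold y0; rw [if_pos (by omega), if_pos (by omega)]; omega

lemma y0_0o (n j : ℕ) (hn : 2 ≤ n) (h1 : 0 * n + 0 ≤ j) (h2 : j + 1 < 2 * n) (h3 : j % 2 = 1) :
    2 * y0 n j = ((-14) * (n : ℤ) - 3) + (j : ℤ) := by
  unfold y0; rw [if_pos (by omega), if_neg (by omega)]; omega

lemma y0_1e (n j : ℕ) (hn : 2 ≤ n) (h1 : 2 * n ≤ j + 1) (h2 : j + 3 < 4 * n) (h3 : j % 2 = 1) :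
    2 * y0 n j = (18 * (n : ℤ) - 1) - (j : ℤ) := by
  unfold y0; rw [if_neg (by omega), if_pos (by omega), if_pos (by omega)]; omega

lemma y0_1o (n j : ℕ) (hn : 2 ≤ n) (h1 : 2 * n ≤ j + 1) (h2 : j + 3 < 4 * n) (h3 : j % 2 = 0) :
    2 * y0 n j = ((-6) * (n : ℤ) - 2) - (j : ℤ) := by
  unfold y0; rw [if_neg (by omega), if_pos (by omega), if_neg (by omega)]; omega

lemma y0_2 (n j : ℕ) (hn : 2 ≤ n) (h1 : 4 * n ≤ j + 3) (h2 : j + 2 < 4 * n) :
    y0 n j = ((-6) * (n : ℤ) - 2) := by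
  unfold y0; rw [if_neg (by omega), if_neg (by omega), if_pos (by omega)]

lemma y0_3 (n j : ℕ) (hn : 2 ≤ n) (h1 : 4 * n ≤ j + 2) (h2 : j + 1 < 4 * n) :
    y0 n j = (2 * (n : ℤ) + 2) := by
  unfold y0; rw [if_neg (by omega), if_neg (by omega), if_neg (by omega), if_pos (by omega)]

lemma y0_4 (n j : ℕ) (hn : 2 ≤ n) (h1 : 4 * n ≤ j + 1) (h2 : j < 4 * n + 0) :
    y0 n j = (0 * (n : ℤ) - 1) := by
  unfold y0; rw [if_neg (by omega), if_neg (by omega), if_neg (by omega), if_neg (by omega)]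

lemma s0_0i (n j : ℕ) (hn : 2 ≤ n) (h1 : 0 * n + 0 ≤ j) (h2 : j + 2 < 2 * n) :
    y0 n j + y0 n (nxt (4 * n + 0) j) = ((-2) * (n : ℤ) + 1) + (j : ℤ) := by
  rw [show nxt (4 * n + 0) j = j + 1 from if_neg (by omega)]
  by_cases h : j % 2 = 0
  · have a := y0_0e n j hn (by omega) (by omega) (by omega)
    have b := y0_0o n (j + 1) hn (by omega) (by omega) (by omega)
    omega
  · have a := y0_0o n j hn (by omega) (by omega) (by omega)
    have b := y0_0e n (j + 1) hn (by omega) (by omega) (by omega)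
    omega

lemma s0_0j (n j : ℕ) (hn : 2 ≤ n) (h1 : 2 * n ≤ j + 2) (h2 : j + 1 < 2 * n) :
    y0 n j + y0 n (nxt (4 * n + 0) j) = (14 * (n : ℤ) + 1) := by
  rw [show nxt (4 * n + 0) j = j + 1 from if_neg (by omega)]
  have a := y0_0e n (j) hn (by omega) (by omega) (by omega)
  have b := y0_1e n (j + 1) hn (by omega) (by omega) (by omega)
  omega

lemma s0_1i (n j : ℕ) (hn : 2 ≤ n) (h1 : 2 * n ≤ j + 1) (h2 : j + 4 < 4 * n) :
    y0 n j + y0 n (nxt (4 * n + 0) j) = (6 * (n : ℤ) - 2) - (j : ℤ) := by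
  rw [show nxt (4 * n + 0) j = j + 1 from if_neg (by omega)]
  by_cases h : j % 2 = 1
  · have a := y0_1e n j hn (by omega) (by omega) (by omega)
    have b := y0_1o n (j + 1) hn (by omega) (by omega) (by omega)
    omega
  · have a := y0_1o n j hn (by omega) (by omega) (by omega)
    have b := y0_1e n (j + 1) hn (by omega) (by omega) (by omega)
    omega

lemma s0_1j (n j : ℕ) (hn : 2 ≤ n) (h1 : 4 * n ≤ j + 4) (h2 : j + 3 < 4 * n) :
    y0 n j + y0 n (nxt (4 * n + 0) j) = ((-11) * (n : ℤ) - 1) := by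
  rw [show nxt (4 * n + 0) j = j + 1 from if_neg (by omega)]
  have a := y0_1o n (j) hn (by omega) (by omega) (by omega)
  have b := y0_2 n (j + 1) hn (by omega) (by omega)
  omega

lemma s0_2j (n j : ℕ) (hn : 2 ≤ n) (h1 : 4 * n ≤ j + 3) (h2 : j + 2 < 4 * n) :
    y0 n j + y0 n (nxt (4 * n + 0) j) = ((-4) * (n : ℤ) + 0) := by
  rw [show nxt (4 * n + 0) j = j + 1 from if_neg (by omega)]
  have a := y0_2 n (j) hn (by omega) (by omega)
  have b := y0_3 n (j + 1) hn (by omega) (by omega)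
  omega

lemma s0_3j (n j : ℕ) (hn : 2 ≤ n) (h1 : 4 * n ≤ j + 2) (h2 : j + 1 < 4 * n) :
    y0 n j + y0 n (nxt (4 * n + 0) j) = (2 * (n : ℤ) + 1) := by
  rw [show nxt (4 * n + 0) j = j + 1 from if_neg (by omega)]
  have a := y0_3 n (j) hn (by omega) (by omega)
  have b := y0_4 n (j + 1) hn (by omega) (by omega)
  omega

lemma s0_4j (n j : ℕ) (hn : 2 ≤ n) (h1 : 4 * n ≤ j + 1) (h2 : j < 4 * n + 0) :
    y0 n j + y0 n (nxt (4 * n + 0) j) = (5 * (n : ℤ) + 1) := by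
  rw [show nxt (4 * n + 0) j = 0 from if_pos (by omega)]
  have a := y0_4 n (j) hn (by omega) (by omega)
  have b := y0_0e n (0) hn (by omega) (by omega) (by omega)
  omega


lemma nz0 (n : ℕ) (hn : 2 ≤ n) (j : ℕ) (hj : j < (4 * n + 0)) :
    NZ (4 * n + 0) (y0 n j) ∧ NZ (4 * n + 0) (y0 n j + y0 n (nxt (4 * n + 0) j)) := by
  constructor
  · by_cases c0 : j + 1 < 2 * n
    · by_cases h : j % 2 = 0
      · have a := y0_0e n j hn (by omega) (by omega) (by omega)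
        unfold NZ; omega
      · have a := y0_0o n j hn (by omega) (by omega) (by omega)
        unfold NZ; omega
    by_cases c1 : j + 3 < 4 * n
    · by_cases h : j % 2 = 1
      · have a := y0_1e n j hn (by omega) (by omega) (by omega)
        unfold NZ; omega
      · have a := y0_1o n j hn (by omega) (by omega) (by omega)
        unfold NZ; omega
    by_cases c2 : j + 2 < 4 * n
    · have a := y0_2 n j hn (by omega) (by omega)
      unfold NZ; omega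
    by_cases c3 : j + 1 < 4 * n
    · have a := y0_3 n j hn (by omega) (by omega)
      unfold NZ; omega
    have a := y0_4 n j hn (by omega) (by omega)
    unfold NZ; omega
  · by_cases c0 : j + 2 < 2 * n
    · have a := s0_0i n j hn (by omega) (by omega)
      unfold NZ; omega
    by_cases c1 : j + 1 < 2 * n
    · have a := s0_0j n j hn (by omega) (by omega)
      unfold NZ; omega
    by_cases c2 : j + 4 < 4 * n
    · have a := s0_1i n j hn (by omega) (by omega)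
      unfold NZ; omega
    by_cases c3 : j + 3 < 4 * n
    · have a := s0_1j n j hn (by omega) (by omega)
      unfold NZ; omega
    by_cases c4 : j + 2 < 4 * n
    · have a := s0_2j n j hn (by omega) (by omega)
      unfold NZ; omega
    by_cases c5 : j + 1 < 4 * n
    · have a := s0_3j n j hn (by omega) (by omega)
      unfold NZ; omega
    have a := s0_4j n j hn (by omega) (by omega)
    unfold NZ; omega

lemma cov0 (n : ℕ) (hn : 2 ≤ n) (v : ℕ) (h1 : 1 ≤ v) (h2 : v ≤ 2 * (4 * n + 0)) :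
    ∃ j < (4 * n + 0), G (4 * n + 0) v (y0 n j) ∨ G (4 * n + 0) v (y0 n j + y0 n (nxt (4 * n + 0) j)) := by
  by_cases c0 : v ≤ 0 * n + 1
  · obtain ⟨j, hj⟩ : ∃ j, j = 4 * n - (1) := ⟨_, rfl⟩
    have a := y0_4 n j hn (by omega) (by omega)
    exact ⟨j, by omega, Or.inl (by unfold G; omega)⟩
  by_cases c1 : v + 1 ≤ 2 * n
  · obtain ⟨j, hj⟩ : ∃ j, j = 2 * n - (1 * v + 1) := ⟨_, rfl⟩
    have a := s0_0i n j hn (by omega) (by omega)
    exact ⟨j, by omega, Or.inr (by unfold G; omega)⟩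
  by_cases c2 : v ≤ 2 * n + 0
  · obtain ⟨j, hj⟩ : ∃ j, j = 2 * n - (2) := ⟨_, rfl⟩
    have a := s0_0j n j hn (by omega) (by omega)
    exact ⟨j, by omega, Or.inr (by unfold G; omega)⟩
  by_cases c3 : v ≤ 2 * n + 1
  · obtain ⟨j, hj⟩ : ∃ j, j = 4 * n - (2) := ⟨_, rfl⟩
    have a := s0_3j n j hn (by omega) (by omega)
    exact ⟨j, by omega, Or.inr (by unfold G; omega)⟩
  by_cases c4 : v ≤ 2 * n + 2
  · obtain ⟨j, hj⟩ : ∃ j, j = 4 * n - (2) := ⟨_, rfl⟩
    have a := y0_3 n j hn (by omega) (by omega)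
    exact ⟨j, by omega, Or.inl (by unfold G; omega)⟩
  by_cases c5 : v + 1 ≤ 4 * n
  · obtain ⟨j, hj⟩ : ∃ j, j = 6 * n - (1 * v + 2) := ⟨_, rfl⟩
    have a := s0_1i n j hn (by omega) (by omega)
    exact ⟨j, by omega, Or.inr (by unfold G; omega)⟩
  by_cases c6 : v ≤ 4 * n + 0
  · obtain ⟨j, hj⟩ : ∃ j, j = 4 * n - (3) := ⟨_, rfl⟩
    have a := s0_2j n j hn (by omega) (by omega)
    exact ⟨j, by omega, Or.inr (by unfold G; omega)⟩
  by_cases c7 : v + 1 ≤ 5 * n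
  · obtain ⟨j, hj⟩ : ∃ j, j = 2 * v - (6 * n + 2) := ⟨_, rfl⟩
    have a := y0_1o n j hn (by omega) (by omega) (by omega)
    exact ⟨j, by omega, Or.inl (by unfold G; omega)⟩
  by_cases c8 : v ≤ 5 * n + 0
  · obtain ⟨j, hj⟩ : ∃ j, j = 4 * n - (4) := ⟨_, rfl⟩
    have a := s0_1j n j hn (by omega) (by omega)
    exact ⟨j, by omega, Or.inr (by unfold G; omega)⟩
  by_cases c9 : v ≤ 5 * n + 1
  · obtain ⟨j, hj⟩ : ∃ j, j = 4 * n - (1) := ⟨_, rfl⟩
    have a := s0_4j n j hn (by omega) (by omega)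
    exact ⟨j, by omega, Or.inr (by unfold G; omega)⟩
  by_cases c10 : v ≤ 6 * n + 1
  · obtain ⟨j, hj⟩ : ∃ j, j = 2 * v - (10 * n + 4) := ⟨_, rfl⟩
    have a := y0_0e n j hn (by omega) (by omega) (by omega)
    exact ⟨j, by omega, Or.inl (by unfold G; omega)⟩
  by_cases c11 : v ≤ 6 * n + 2
  · obtain ⟨j, hj⟩ : ∃ j, j = 4 * n - (3) := ⟨_, rfl⟩
    have a := y0_2 n j hn (by omega) (by omega)
    exact ⟨j, by omega, Or.inl (by unfold G; omega)⟩
  by_cases c12 : v ≤ 7 * n + 1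
  · obtain ⟨j, hj⟩ : ∃ j, j = 14 * n + 3 - (2 * v) := ⟨_, rfl⟩
    have a := y0_0o n j hn (by omega) (by omega) (by omega)
    exact ⟨j, by omega, Or.inl (by unfold G; omega)⟩
  obtain ⟨j, hj⟩ : ∃ j, j = 18 * n - (2 * v + 1) := ⟨_, rfl⟩
  have a := y0_1e n j hn (by omega) (by omega) (by omega)
  exact ⟨j, by omega, Or.inl (by unfold G; omega)⟩

def y1 (n j : ℕ) : ℤ :=
  if j + 2 < 2 * n then (if j % 2 = 0 then (5 * (n : ℤ) + 1) + ((j / 2 : ℕ) : ℤ) else ((-7) * (n : ℤ) + 0) + ((j / 2 : ℕ) : ℤ)) else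
  if j + 1 < 2 * n then ((-8) * (n : ℤ) - 2) else
  if j + 0 < 2 * n then ((-2) * (n : ℤ) - 3) else
  if j + 2 < 4 * n then (if (j + 0 - 2 * n) % 2 = 0 then ((-8) * (n : ℤ) - 1) + (((j + 0 - 2 * n) / 2 : ℕ) : ℤ) else (4 * (n : ℤ) + 1) + (((j + 0 - 2 * n) / 2 : ℕ) : ℤ)) else
  if j + 1 < 4 * n then ((-5) * (n : ℤ) + 0) else
  if j + 0 < 4 * n then ((-2) * (n : ℤ) - 2) else
  (2 * (n : ℤ) + 0)

lemma y1_0e (n j : ℕ) (hn : 2 ≤ n) (h1 : 0 * n + 0 ≤ j) (h2 : j + 2 < 2 * n) (h3 : j % 2 = 0) :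
    2 * y1 n j = (10 * (n : ℤ) + 2) + (j : ℤ) := by
  unfold y1; rw [if_pos (by omega), if_pos (by omega)]; omega

lemma y1_0o (n j : ℕ) (hn : 2 ≤ n) (h1 : 0 * n + 0 ≤ j) (h2 : j + 2 < 2 * n) (h3 : j % 2 = 1) :
    2 * y1 n j = ((-14) * (n : ℤ) - 1) + (j : ℤ) := by
  unfold y1; rw [if_pos (by omega), if_neg (by omega)]; omega

lemma y1_1 (n j : ℕ) (hn : 2 ≤ n) (h1 : 2 * n ≤ j + 2) (h2 : j + 1 < 2 * n) :
    y1 n j = ((-8) * (n : ℤ) - 2) := by
  unfold y1; rw [if_neg (by omega), if_pos (by omega)]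

lemma y1_2 (n j : ℕ) (hn : 2 ≤ n) (h1 : 2 * n ≤ j + 1) (h2 : j < 2 * n + 0) :
    y1 n j = ((-2) * (n : ℤ) - 3) := by
  unfold y1; rw [if_neg (by omega), if_neg (by omega), if_pos (by omega)]

lemma y1_3e (n j : ℕ) (hn : 2 ≤ n) (h1 : 2 * n + 0 ≤ j) (h2 : j + 2 < 4 * n) (h3 : j % 2 = 0) :
    2 * y1 n j = ((-18) * (n : ℤ) - 2) + (j : ℤ) := by
  unfold y1; rw [if_neg (by omega), if_neg (by omega), if_neg (by omega), if_pos (by omega), if_pos (by omega)]; omega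

lemma y1_3o (n j : ℕ) (hn : 2 ≤ n) (h1 : 2 * n + 0 ≤ j) (h2 : j + 2 < 4 * n) (h3 : j % 2 = 1) :
    2 * y1 n j = (6 * (n : ℤ) + 1) + (j : ℤ) := by
  unfold y1; rw [if_neg (by omega), if_neg (by omega), if_neg (by omega), if_pos (by omega), if_neg (by omega)]; omega

lemma y1_4 (n j : ℕ) (hn : 2 ≤ n) (h1 : 4 * n ≤ j + 2) (h2 : j + 1 < 4 * n) :
    y1 n j = ((-5) * (n : ℤ) + 0) := by
  unfold y1; rw [if_neg (by omega), if_neg (by omega), if_neg (by omega), if_neg (by omega), if_pos (by omega)]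

lemma y1_5 (n j : ℕ) (hn : 2 ≤ n) (h1 : 4 * n ≤ j + 1) (h2 : j < 4 * n + 0) :
    y1 n j = ((-2) * (n : ℤ) - 2) := by
  unfold y1; rw [if_neg (by omega), if_neg (by omega), if_neg (by omega), if_neg (by omega), if_neg (by omega), if_pos (by omega)]

lemma y1_6 (n j : ℕ) (hn : 2 ≤ n) (h1 : 4 * n + 0 ≤ j) (h2 : j < 4 * n + 1) :
    y1 n j = (2 * (n : ℤ) + 0) := by
  unfold y1; rw [if_neg (by omega), if_neg (by omega), if_neg (by omega), if_neg (by omega), if_neg (by omega), if_neg (by omega)]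

lemma s1_0i (n j : ℕ) (hn : 2 ≤ n) (h1 : 0 * n + 0 ≤ j) (h2 : j + 3 < 2 * n) :
    y1 n j + y1 n (nxt (4 * n + 1) j) = ((-2) * (n : ℤ) + 1) + (j : ℤ) := by
  rw [show nxt (4 * n + 1) j = j + 1 from if_neg (by omega)]
  by_cases h : j % 2 = 0
  · have a := y1_0e n j hn (by omega) (by omega) (by omega)
    have b := y1_0o n (j + 1) hn (by omega) (by omega) (by omega)
    omega
  · have a := y1_0o n j hn (by omega) (by omega) (by omega)
    have b := y1_0e n (j + 1) hn (by omega) (by omega) (by omega)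
    omega

lemma s1_0j (n j : ℕ) (hn : 2 ≤ n) (h1 : 2 * n ≤ j + 3) (h2 : j + 2 < 2 * n) :
    y1 n j + y1 n (nxt (4 * n + 1) j) = ((-14) * (n : ℤ) - 4) := by
  rw [show nxt (4 * n + 1) j = j + 1 from if_neg (by omega)]
  have a := y1_0o n (j) hn (by omega) (by omega) (by omega)
  have b := y1_1 n (j + 1) hn (by omega) (by omega)
  omega

lemma s1_1j (n j : ℕ) (hn : 2 ≤ n) (h1 : 2 * n ≤ j + 2) (h2 : j + 1 < 2 * n) :
    y1 n j + y1 n (nxt (4 * n + 1) j) = ((-10) * (n : ℤ) - 5) := by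
  rw [show nxt (4 * n + 1) j = j + 1 from if_neg (by omega)]
  have a := y1_1 n (j) hn (by omega) (by omega)
  have b := y1_2 n (j + 1) hn (by omega) (by omega)
  omega

lemma s1_2j (n j : ℕ) (hn : 2 ≤ n) (h1 : 2 * n ≤ j + 1) (h2 : j < 2 * n + 0) :
    y1 n j + y1 n (nxt (4 * n + 1) j) = ((-10) * (n : ℤ) - 4) := by
  rw [show nxt (4 * n + 1) j = j + 1 from if_neg (by omega)]
  have a := y1_2 n (j) hn (by omega) (by omega)
  have b := y1_3e n (j + 1) hn (by omega) (by omega) (by omega)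
  omega

lemma s1_3i (n j : ℕ) (hn : 2 ≤ n) (h1 : 2 * n + 0 ≤ j) (h2 : j + 3 < 4 * n) :
    y1 n j + y1 n (nxt (4 * n + 1) j) = ((-6) * (n : ℤ) + 0) + (j : ℤ) := by
  rw [show nxt (4 * n + 1) j = j + 1 from if_neg (by omega)]
  by_cases h : j % 2 = 0
  · have a := y1_3e n j hn (by omega) (by omega) (by omega)
    have b := y1_3o n (j + 1) hn (by omega) (by omega) (by omega)
    omega
  · have a := y1_3o n j hn (by omega) (by omega) (by omega)
    have b := y1_3e n (j + 1) hn (by omega) (by omega) (by omega)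
    omega

lemma s1_3j (n j : ℕ) (hn : 2 ≤ n) (h1 : 4 * n ≤ j + 3) (h2 : j + 2 < 4 * n) :
    y1 n j + y1 n (nxt (4 * n + 1) j) = (0 * (n : ℤ) - 1) := by
  rw [show nxt (4 * n + 1) j = j + 1 from if_neg (by omega)]
  have a := y1_3o n (j) hn (by omega) (by omega) (by omega)
  have b := y1_4 n (j + 1) hn (by omega) (by omega)
  omega

lemma s1_4j (n j : ℕ) (hn : 2 ≤ n) (h1 : 4 * n ≤ j + 2) (h2 : j + 1 < 4 * n) :
    y1 n j + y1 n (nxt (4 * n + 1) j) = ((-7) * (n : ℤ) - 2) := by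
  rw [show nxt (4 * n + 1) j = j + 1 from if_neg (by omega)]
  have a := y1_4 n (j) hn (by omega) (by omega)
  have b := y1_5 n (j + 1) hn (by omega) (by omega)
  omega

lemma s1_5j (n j : ℕ) (hn : 2 ≤ n) (h1 : 4 * n ≤ j + 1) (h2 : j < 4 * n + 0) :
    y1 n j + y1 n (nxt (4 * n + 1) j) = (0 * (n : ℤ) - 2) := by
  rw [show nxt (4 * n + 1) j = j + 1 from if_neg (by omega)]
  have a := y1_5 n (j) hn (by omega) (by omega)
  have b := y1_6 n (j + 1) hn (by omega) (by omega)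
  omega

lemma s1_6j (n j : ℕ) (hn : 2 ≤ n) (h1 : 4 * n + 0 ≤ j) (h2 : j < 4 * n + 1) :
    y1 n j + y1 n (nxt (4 * n + 1) j) = (7 * (n : ℤ) + 1) := by
  rw [show nxt (4 * n + 1) j = 0 from if_pos (by omega)]
  have a := y1_6 n (j) hn (by omega) (by omega)
  have b := y1_0e n (0) hn (by omega) (by omega) (by omega)
  omega


lemma nz1 (n : ℕ) (hn : 2 ≤ n) (j : ℕ) (hj : j < (4 * n + 1)) :
    NZ (4 * n + 1) (y1 n j) ∧ NZ (4 * n + 1) (y1 n j + y1 n (nxt (4 * n + 1) j)) := by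
  constructor
  · by_cases c0 : j + 2 < 2 * n
    · by_cases h : j % 2 = 0
      · have a := y1_0e n j hn (by omega) (by omega) (by omega)
        unfold NZ; omega
      · have a := y1_0o n j hn (by omega) (by omega) (by omega)
        unfold NZ; omega
    by_cases c1 : j + 1 < 2 * n
    · have a := y1_1 n j hn (by omega) (by omega)
      unfold NZ; omega
    by_cases c2 : j < 2 * n + 0
    · have a := y1_2 n j hn (by omega) (by omega)
      unfold NZ; omega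
    by_cases c3 : j + 2 < 4 * n
    · by_cases h : j % 2 = 0
      · have a := y1_3e n j hn (by omega) (by omega) (by omega)
        unfold NZ; omega
      · have a := y1_3o n j hn (by omega) (by omega) (by omega)
        unfold NZ; omega
    by_cases c4 : j + 1 < 4 * n
    · have a := y1_4 n j hn (by omega) (by omega)
      unfold NZ; omega
    by_cases c5 : j < 4 * n + 0
    · have a := y1_5 n j hn (by omega) (by omega)
      unfold NZ; omega
    have a := y1_6 n j hn (by omega) (by omega)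
    unfold NZ; omega
  · by_cases c0 : j + 3 < 2 * n
    · have a := s1_0i n j hn (by omega) (by omega)
      unfold NZ; omega
    by_cases c1 : j + 2 < 2 * n
    · have a := s1_0j n j hn (by omega) (by omega)
      unfold NZ; omega
    by_cases c2 : j + 1 < 2 * n
    · have a := s1_1j n j hn (by omega) (by omega)
      unfold NZ; omega
    by_cases c3 : j < 2 * n + 0
    · have a := s1_2j n j hn (by omega) (by omega)
      unfold NZ; omega
    by_cases c4 : j + 3 < 4 * n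
    · have a := s1_3i n j hn (by omega) (by omega)
      unfold NZ; omega
    by_cases c5 : j + 2 < 4 * n
    · have a := s1_3j n j hn (by omega) (by omega)
      unfold NZ; omega
    by_cases c6 : j + 1 < 4 * n
    · have a := s1_4j n j hn (by omega) (by omega)
      unfold NZ; omega
    by_cases c7 : j < 4 * n + 0
    · have a := s1_5j n j hn (by omega) (by omega)
      unfold NZ; omega
    have a := s1_6j n j hn (by omega) (by omega)
    unfold NZ; omega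

lemma cov1 (n : ℕ) (hn : 2 ≤ n) (v : ℕ) (h1 : 1 ≤ v) (h2 : v ≤ 2 * (4 * n + 1)) :
    ∃ j < (4 * n + 1), G (4 * n + 1) v (y1 n j) ∨ G (4 * n + 1) v (y1 n j + y1 n (nxt (4 * n + 1) j)) := by
  by_cases c0 : v ≤ 0 * n + 1
  · obtain ⟨j, hj⟩ : ∃ j, j = 4 * n - (3) := ⟨_, rfl⟩
    have a := s1_3j n j hn (by omega) (by omega)
    exact ⟨j, by omega, Or.inr (by unfold G; omega)⟩
  by_cases c1 : v ≤ 0 * n + 2
  · obtain ⟨j, hj⟩ : ∃ j, j = 4 * n - (1) := ⟨_, rfl⟩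
    have a := s1_5j n j hn (by omega) (by omega)
    exact ⟨j, by omega, Or.inr (by unfold G; omega)⟩
  by_cases c2 : v + 1 ≤ 2 * n
  · obtain ⟨j, hj⟩ : ∃ j, j = 2 * n - (1 * v + 1) := ⟨_, rfl⟩
    have a := s1_0i n j hn (by omega) (by omega)
    exact ⟨j, by omega, Or.inr (by unfold G; omega)⟩
  by_cases c3 : v ≤ 2 * n + 0
  · obtain ⟨j, hj⟩ : ∃ j, j = 4 * n := ⟨_, rfl⟩
    have a := y1_6 n j hn (by omega) (by omega)
    exact ⟨j, by omega, Or.inl (by unfold G; omega)⟩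
  by_cases c4 : v ≤ 2 * n + 1
  · obtain ⟨j, hj⟩ : ∃ j, j = 2 * n - (3) := ⟨_, rfl⟩
    have a := s1_0j n j hn (by omega) (by omega)
    exact ⟨j, by omega, Or.inr (by unfold G; omega)⟩
  by_cases c5 : v ≤ 2 * n + 2
  · obtain ⟨j, hj⟩ : ∃ j, j = 4 * n - (1) := ⟨_, rfl⟩
    have a := y1_5 n j hn (by omega) (by omega)
    exact ⟨j, by omega, Or.inl (by unfold G; omega)⟩
  by_cases c6 : v ≤ 2 * n + 3
  · obtain ⟨j, hj⟩ : ∃ j, j = 2 * n - (1) := ⟨_, rfl⟩
    have a := y1_2 n j hn (by omega) (by omega)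
    exact ⟨j, by omega, Or.inl (by unfold G; omega)⟩
  by_cases c7 : v ≤ 4 * n + 0
  · obtain ⟨j, hj⟩ : ∃ j, j = 6 * n - (1 * v) := ⟨_, rfl⟩
    have a := s1_3i n j hn (by omega) (by omega)
    exact ⟨j, by omega, Or.inr (by unfold G; omega)⟩
  by_cases c8 : v + 1 ≤ 5 * n
  · obtain ⟨j, hj⟩ : ∃ j, j = 2 * v - (6 * n + 1) := ⟨_, rfl⟩
    have a := y1_3o n j hn (by omega) (by omega) (by omega)
    exact ⟨j, by omega, Or.inl (by unfold G; omega)⟩
  by_cases c9 : v ≤ 5 * n + 0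
  · obtain ⟨j, hj⟩ : ∃ j, j = 4 * n - (2) := ⟨_, rfl⟩
    have a := y1_4 n j hn (by omega) (by omega)
    exact ⟨j, by omega, Or.inl (by unfold G; omega)⟩
  by_cases c10 : v + 1 ≤ 6 * n
  · obtain ⟨j, hj⟩ : ∃ j, j = 2 * v - (10 * n + 2) := ⟨_, rfl⟩
    have a := y1_0e n j hn (by omega) (by omega) (by omega)
    exact ⟨j, by omega, Or.inl (by unfold G; omega)⟩
  by_cases c11 : v ≤ 6 * n + 0
  · obtain ⟨j, hj⟩ : ∃ j, j = 1 * v - (4 * n + 2) := ⟨_, rfl⟩
    have a := s1_1j n j hn (by omega) (by omega)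
    exact ⟨j, by omega, Or.inr (by unfold G; omega)⟩
  by_cases c12 : v ≤ 6 * n + 1
  · obtain ⟨j, hj⟩ : ∃ j, j = 1 * v - (4 * n + 2) := ⟨_, rfl⟩
    have a := s1_2j n j hn (by omega) (by omega)
    exact ⟨j, by omega, Or.inr (by unfold G; omega)⟩
  by_cases c13 : v ≤ 7 * n + 0
  · obtain ⟨j, hj⟩ : ∃ j, j = 14 * n + 1 - (2 * v) := ⟨_, rfl⟩
    have a := y1_0o n j hn (by omega) (by omega) (by omega)
    exact ⟨j, by omega, Or.inl (by unfold G; omega)⟩
  by_cases c14 : v ≤ 7 * n + 1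
  · obtain ⟨j, hj⟩ : ∃ j, j = 4 * n := ⟨_, rfl⟩
    have a := s1_6j n j hn (by omega) (by omega)
    exact ⟨j, by omega, Or.inr (by unfold G; omega)⟩
  by_cases c15 : v ≤ 7 * n + 2
  · obtain ⟨j, hj⟩ : ∃ j, j = 4 * n - (2) := ⟨_, rfl⟩
    have a := s1_4j n j hn (by omega) (by omega)
    exact ⟨j, by omega, Or.inr (by unfold G; omega)⟩
  by_cases c16 : v ≤ 8 * n + 1
  · obtain ⟨j, hj⟩ : ∃ j, j = 18 * n + 2 - (2 * v) := ⟨_, rfl⟩
    have a := y1_3e n j hn (by omega) (by omega) (by omega)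
    exact ⟨j, by omega, Or.inl (by unfold G; omega)⟩
  obtain ⟨j, hj⟩ : ∃ j, j = 18 * n + 2 - (2 * v) := ⟨_, rfl⟩
  have a := y1_1 n j hn (by omega) (by omega)
  exact ⟨j, by omega, Or.inl (by unfold G; omega)⟩

def y2 (n j : ℕ) : ℤ :=
  if j + 1 < 2 * n then (if j % 2 = 0 then (5 * (n : ℤ) + 4) + ((j / 2 : ℕ) : ℤ) else ((-7) * (n : ℤ) - 3) + ((j / 2 : ℕ) : ℤ)) else
  if j + 0 < 2 * n then (2 * (n : ℤ) + 0) else
  if j < 2 * n + 1 then (2 * (n : ℤ) + 1) else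
  if j < 2 * n + 2 then (6 * (n : ℤ) + 4) else
  if j < 4 * n + 1 then (if (j - (2 * n + 2)) % 2 = 0 then ((-4) * (n : ℤ) - 2) - (((j - (2 * n + 2)) / 2 : ℕ) : ℤ) else (8 * (n : ℤ) + 2) - (((j - (2 * n + 2)) / 2 : ℕ) : ℤ)) else
  (0 * (n : ℤ) - 1)

lemma y2_0e (n j : ℕ) (hn : 1 ≤ n) (h1 : 0 * n + 0 ≤ j) (h2 : j + 1 < 2 * n) (h3 : j % 2 = 0) :
    2 * y2 n j = (10 * (n : ℤ) + 8) + (j : ℤ) := by
  unfold y2; rw [if_pos (by omega), if_pos (by omega)]; omega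

lemma y2_0o (n j : ℕ) (hn : 1 ≤ n) (h1 : 0 * n + 0 ≤ j) (h2 : j + 1 < 2 * n) (h3 : j % 2 = 1) :
    2 * y2 n j = ((-14) * (n : ℤ) - 7) + (j : ℤ) := by
  unfold y2; rw [if_pos (by omega), if_neg (by omega)]; omega

lemma y2_1 (n j : ℕ) (hn : 1 ≤ n) (h1 : 2 * n ≤ j + 1) (h2 : j < 2 * n + 0) :
    y2 n j = (2 * (n : ℤ) + 0) := by
  unfold y2; rw [if_neg (by omega), if_pos (by omega)]

lemma y2_2 (n j : ℕ) (hn : 1 ≤ n) (h1 : 2 * n + 0 ≤ j) (h2 : j < 2 * n + 1) :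
    y2 n j = (2 * (n : ℤ) + 1) := by
  unfold y2; rw [if_neg (by omega), if_neg (by omega), if_pos (by omega)]

lemma y2_3 (n j : ℕ) (hn : 1 ≤ n) (h1 : 2 * n + 1 ≤ j) (h2 : j < 2 * n + 2) :
    y2 n j = (6 * (n : ℤ) + 4) := by
  unfold y2; rw [if_neg (by omega), if_neg (by omega), if_neg (by omega), if_pos (by omega)]

lemma y2_4e (n j : ℕ) (hn : 1 ≤ n) (h1 : 2 * n + 2 ≤ j) (h2 : j < 4 * n + 1) (h3 : j % 2 = 0) :
    2 * y2 n j = ((-6) * (n : ℤ) - 2) - (j : ℤ) := by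
  unfold y2; rw [if_neg (by omega), if_neg (by omega), if_neg (by omega), if_neg (by omega), if_pos (by omega), if_pos (by omega)]; omega

lemma y2_4o (n j : ℕ) (hn : 1 ≤ n) (h1 : 2 * n + 2 ≤ j) (h2 : j < 4 * n + 1) (h3 : j % 2 = 1) :
    2 * y2 n j = (18 * (n : ℤ) + 7) - (j : ℤ) := by
  unfold y2; rw [if_neg (by omega), if_neg (by omega), if_neg (by omega), if_neg (by omega), if_pos (by omega), if_neg (by omega)]; omega

lemma y2_5 (n j : ℕ) (hn : 1 ≤ n) (h1 : 4 * n + 1 ≤ j) (h2 : j < 4 * n + 2) :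
    y2 n j = (0 * (n : ℤ) - 1) := by
  unfold y2; rw [if_neg (by omega), if_neg (by omega), if_neg (by omega), if_neg (by omega), if_neg (by omega)]

lemma s2_0i (n j : ℕ) (hn : 1 ≤ n) (h1 : 0 * n + 0 ≤ j) (h2 : j + 2 < 2 * n) :
    y2 n j + y2 n (nxt (4 * n + 2) j) = ((-2) * (n : ℤ) + 1) + (j : ℤ) := by
  rw [show nxt (4 * n + 2) j = j + 1 from if_neg (by omega)]
  by_cases h : j % 2 = 0
  · have a := y2_0e n j hn (by omega) (by omega) (by omega)
    have b := y2_0o n (j + 1) hn (by omega) (by omega) (by omega)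
    omega
  · have a := y2_0o n j hn (by omega) (by omega) (by omega)
    have b := y2_0e n (j + 1) hn (by omega) (by omega) (by omega)
    omega

lemma s2_0j (n j : ℕ) (hn : 1 ≤ n) (h1 : 2 * n ≤ j + 2) (h2 : j + 1 < 2 * n) :
    y2 n j + y2 n (nxt (4 * n + 2) j) = (8 * (n : ℤ) + 3) := by
  rw [show nxt (4 * n + 2) j = j + 1 from if_neg (by omega)]
  have a := y2_0e n (j) hn (by omega) (by omega) (by omega)
  have b := y2_1 n (j + 1) hn (by omega) (by omega)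
  omega

lemma s2_1j (n j : ℕ) (hn : 1 ≤ n) (h1 : 2 * n ≤ j + 1) (h2 : j < 2 * n + 0) :
    y2 n j + y2 n (nxt (4 * n + 2) j) = (4 * (n : ℤ) + 1) := by
  rw [show nxt (4 * n + 2) j = j + 1 from if_neg (by omega)]
  have a := y2_1 n (j) hn (by omega) (by omega)
  have b := y2_2 n (j + 1) hn (by omega) (by omega)
  omega

lemma s2_2j (n j : ℕ) (hn : 1 ≤ n) (h1 : 2 * n + 0 ≤ j) (h2 : j < 2 * n + 1) :
    y2 n j + y2 n (nxt (4 * n + 2) j) = (8 * (n : ℤ) + 5) := by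
  rw [show nxt (4 * n + 2) j = j + 1 from if_neg (by omega)]
  have a := y2_2 n (j) hn (by omega) (by omega)
  have b := y2_3 n (j + 1) hn (by omega) (by omega)
  omega

lemma s2_3j (n j : ℕ) (hn : 1 ≤ n) (h1 : 2 * n + 1 ≤ j) (h2 : j < 2 * n + 2) :
    y2 n j + y2 n (nxt (4 * n + 2) j) = (2 * (n : ℤ) + 2) := by
  rw [show nxt (4 * n + 2) j = j + 1 from if_neg (by omega)]
  have a := y2_3 n (j) hn (by omega) (by omega)
  have b := y2_4e n (j + 1) hn (by omega) (by omega) (by omega)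
  omega

lemma s2_4i (n j : ℕ) (hn : 1 ≤ n) (h1 : 2 * n + 2 ≤ j) (h2 : j < 4 * n + 0) :
    y2 n j + y2 n (nxt (4 * n + 2) j) = (6 * (n : ℤ) + 2) - (j : ℤ) := by
  rw [show nxt (4 * n + 2) j = j + 1 from if_neg (by omega)]
  by_cases h : j % 2 = 0
  · have a := y2_4e n j hn (by omega) (by omega) (by omega)
    have b := y2_4o n (j + 1) hn (by omega) (by omega) (by omega)
    omega
  · have a := y2_4o n j hn (by omega) (by omega) (by omega)
    have b := y2_4e n (j + 1) hn (by omega) (by omega) (by omega)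
    omega

lemma s2_4j (n j : ℕ) (hn : 1 ≤ n) (h1 : 4 * n + 0 ≤ j) (h2 : j < 4 * n + 1) :
    y2 n j + y2 n (nxt (4 * n + 2) j) = ((-5) * (n : ℤ) - 2) := by
  rw [show nxt (4 * n + 2) j = j + 1 from if_neg (by omega)]
  have a := y2_4e n (j) hn (by omega) (by omega) (by omega)
  have b := y2_5 n (j + 1) hn (by omega) (by omega)
  omega

lemma s2_5j (n j : ℕ) (hn : 1 ≤ n) (h1 : 4 * n + 1 ≤ j) (h2 : j < 4 * n + 2) :
    y2 n j + y2 n (nxt (4 * n + 2) j) = (5 * (n : ℤ) + 3) := by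
  rw [show nxt (4 * n + 2) j = 0 from if_pos (by omega)]
  have a := y2_5 n (j) hn (by omega) (by omega)
  have b := y2_0e n (0) hn (by omega) (by omega) (by omega)
  omega


lemma nz2 (n : ℕ) (hn : 1 ≤ n) (j : ℕ) (hj : j < (4 * n + 2)) :
    NZ (4 * n + 2) (y2 n j) ∧ NZ (4 * n + 2) (y2 n j + y2 n (nxt (4 * n + 2) j)) := by
  constructor
  · by_cases c0 : j + 1 < 2 * n
    · by_cases h : j % 2 = 0
      · have a := y2_0e n j hn (by omega) (by omega) (by omega)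
        unfold NZ; omega
      · have a := y2_0o n j hn (by omega) (by omega) (by omega)
        unfold NZ; omega
    by_cases c1 : j < 2 * n + 0
    · have a := y2_1 n j hn (by omega) (by omega)
      unfold NZ; omega
    by_cases c2 : j < 2 * n + 1
    · have a := y2_2 n j hn (by omega) (by omega)
      unfold NZ; omega
    by_cases c3 : j < 2 * n + 2
    · have a := y2_3 n j hn (by omega) (by omega)
      unfold NZ; omega
    by_cases c4 : j < 4 * n + 1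
    · by_cases h : j % 2 = 0
      · have a := y2_4e n j hn (by omega) (by omega) (by omega)
        unfold NZ; omega
      · have a := y2_4o n j hn (by omega) (by omega) (by omega)
        unfold NZ; omega
    have a := y2_5 n j hn (by omega) (by omega)
    unfold NZ; omega
  · by_cases c0 : j + 2 < 2 * n
    · have a := s2_0i n j hn (by omega) (by omega)
      unfold NZ; omega
    by_cases c1 : j + 1 < 2 * n
    · have a := s2_0j n j hn (by omega) (by omega)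
      unfold NZ; omega
    by_cases c2 : j < 2 * n + 0
    · have a := s2_1j n j hn (by omega) (by omega)
      unfold NZ; omega
    by_cases c3 : j < 2 * n + 1
    · have a := s2_2j n j hn (by omega) (by omega)
      unfold NZ; omega
    by_cases c4 : j < 2 * n + 2
    · have a := s2_3j n j hn (by omega) (by omega)
      unfold NZ; omega
    by_cases c5 : j < 4 * n + 0
    · have a := s2_4i n j hn (by omega) (by omega)
      unfold NZ; omega
    by_cases c6 : j < 4 * n + 1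
    · have a := s2_4j n j hn (by omega) (by omega)
      unfold NZ; omega
    have a := s2_5j n j hn (by omega) (by omega)
    unfold NZ; omega

lemma cov2 (n : ℕ) (hn : 1 ≤ n) (v : ℕ) (h1 : 1 ≤ v) (h2 : v ≤ 2 * (4 * n + 2)) :
    ∃ j < (4 * n + 2), G (4 * n + 2) v (y2 n j) ∨ G (4 * n + 2) v (y2 n j + y2 n (nxt (4 * n + 2) j)) := by
  by_cases c0 : v ≤ 0 * n + 1
  · obtain ⟨j, hj⟩ : ∃ j, j = 4 * n + 1 := ⟨_, rfl⟩
    have a := y2_5 n j hn (by omega) (by omega)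
    exact ⟨j, by omega, Or.inl (by unfold G; omega)⟩
  by_cases c1 : v + 1 ≤ 2 * n
  · obtain ⟨j, hj⟩ : ∃ j, j = 2 * n - (1 * v + 1) := ⟨_, rfl⟩
    have a := s2_0i n j hn (by omega) (by omega)
    exact ⟨j, by omega, Or.inr (by unfold G; omega)⟩
  by_cases c2 : v ≤ 2 * n + 0
  · obtain ⟨j, hj⟩ : ∃ j, j = 2 * n - (1) := ⟨_, rfl⟩
    have a := y2_1 n j hn (by omega) (by omega)
    exact ⟨j, by omega, Or.inl (by unfold G; omega)⟩
  by_cases c3 : v ≤ 2 * n + 1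
  · obtain ⟨j, hj⟩ : ∃ j, j = 2 * n := ⟨_, rfl⟩
    have a := y2_2 n j hn (by omega) (by omega)
    exact ⟨j, by omega, Or.inl (by unfold G; omega)⟩
  by_cases c4 : v ≤ 2 * n + 2
  · obtain ⟨j, hj⟩ : ∃ j, j = 2 * n + 1 := ⟨_, rfl⟩
    have a := s2_3j n j hn (by omega) (by omega)
    exact ⟨j, by omega, Or.inr (by unfold G; omega)⟩
  by_cases c5 : v ≤ 4 * n + 0
  · obtain ⟨j, hj⟩ : ∃ j, j = 6 * n + 2 - (1 * v) := ⟨_, rfl⟩
    have a := s2_4i n j hn (by omega) (by omega)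
    exact ⟨j, by omega, Or.inr (by unfold G; omega)⟩
  by_cases c6 : v ≤ 4 * n + 1
  · obtain ⟨j, hj⟩ : ∃ j, j = 2 * n - (1) := ⟨_, rfl⟩
    have a := s2_1j n j hn (by omega) (by omega)
    exact ⟨j, by omega, Or.inr (by unfold G; omega)⟩
  by_cases c7 : v ≤ 5 * n + 1
  · obtain ⟨j, hj⟩ : ∃ j, j = 2 * v - (6 * n + 2) := ⟨_, rfl⟩
    have a := y2_4e n j hn (by omega) (by omega) (by omega)
    exact ⟨j, by omega, Or.inl (by unfold G; omega)⟩
  by_cases c8 : v ≤ 5 * n + 2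
  · obtain ⟨j, hj⟩ : ∃ j, j = 1 * v - (1 * n + 2) := ⟨_, rfl⟩
    have a := s2_4j n j hn (by omega) (by omega)
    exact ⟨j, by omega, Or.inr (by unfold G; omega)⟩
  by_cases c9 : v ≤ 5 * n + 3
  · obtain ⟨j, hj⟩ : ∃ j, j = 1 * v - (1 * n + 2) := ⟨_, rfl⟩
    have a := s2_5j n j hn (by omega) (by omega)
    exact ⟨j, by omega, Or.inr (by unfold G; omega)⟩
  by_cases c10 : v ≤ 6 * n + 3
  · obtain ⟨j, hj⟩ : ∃ j, j = 2 * v - (10 * n + 8) := ⟨_, rfl⟩
    have a := y2_0e n j hn (by omega) (by omega) (by omega)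
    exact ⟨j, by omega, Or.inl (by unfold G; omega)⟩
  by_cases c11 : v ≤ 6 * n + 4
  · obtain ⟨j, hj⟩ : ∃ j, j = 2 * n + 1 := ⟨_, rfl⟩
    have a := y2_3 n j hn (by omega) (by omega)
    exact ⟨j, by omega, Or.inl (by unfold G; omega)⟩
  by_cases c12 : v ≤ 7 * n + 3
  · obtain ⟨j, hj⟩ : ∃ j, j = 14 * n + 7 - (2 * v) := ⟨_, rfl⟩
    have a := y2_0o n j hn (by omega) (by omega) (by omega)
    exact ⟨j, by omega, Or.inl (by unfold G; omega)⟩
  by_cases c13 : v ≤ 8 * n + 2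
  · obtain ⟨j, hj⟩ : ∃ j, j = 18 * n + 7 - (2 * v) := ⟨_, rfl⟩
    have a := y2_4o n j hn (by omega) (by omega) (by omega)
    exact ⟨j, by omega, Or.inl (by unfold G; omega)⟩
  by_cases c14 : v ≤ 8 * n + 3
  · obtain ⟨j, hj⟩ : ∃ j, j = 2 * n - (2) := ⟨_, rfl⟩
    have a := s2_0j n j hn (by omega) (by omega)
    exact ⟨j, by omega, Or.inr (by unfold G; omega)⟩
  obtain ⟨j, hj⟩ : ∃ j, j = 2 * n := ⟨_, rfl⟩
  have a := s2_2j n j hn (by omega) (by omega)
  exact ⟨j, by omega, Or.inr (by unfold G; omega)⟩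

def y3 (n j : ℕ) : ℤ :=
  if j + 1 < 2 * n then (if j % 2 = 0 then (5 * (n : ℤ) + 3) + ((j / 2 : ℕ) : ℤ) else ((-7) * (n : ℤ) - 3) + ((j / 2 : ℕ) : ℤ)) else
  if j + 0 < 2 * n then ((-6) * (n : ℤ) - 3) else
  if j < 2 * n + 1 then ((-2) * (n : ℤ) - 3) else
  if j < 2 * n + 2 then (2 * (n : ℤ) + 1) else
  if j < 4 * n + 2 then (if (j - (2 * n + 2)) % 2 = 0 then ((-8) * (n : ℤ) - 5) + (((j - (2 * n + 2)) / 2 : ℕ) : ℤ) else (4 * (n : ℤ) + 3) + (((j - (2 * n + 2)) / 2 : ℕ) : ℤ)) else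
  (2 * (n : ℤ) + 2)

lemma y3_0e (n j : ℕ) (hn : 1 ≤ n) (h1 : 0 * n + 0 ≤ j) (h2 : j + 1 < 2 * n) (h3 : j % 2 = 0) :
    2 * y3 n j = (10 * (n : ℤ) + 6) + (j : ℤ) := by
  unfold y3; rw [if_pos (by omega), if_pos (by omega)]; omega

lemma y3_0o (n j : ℕ) (hn : 1 ≤ n) (h1 : 0 * n + 0 ≤ j) (h2 : j + 1 < 2 * n) (h3 : j % 2 = 1) :
    2 * y3 n j = ((-14) * (n : ℤ) - 7) + (j : ℤ) := by
  unfold y3; rw [if_pos (by omega), if_neg (by omega)]; omega

lemma y3_1 (n j : ℕ) (hn : 1 ≤ n) (h1 : 2 * n ≤ j + 1) (h2 : j < 2 * n + 0) :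
    y3 n j = ((-6) * (n : ℤ) - 3) := by
  unfold y3; rw [if_neg (by omega), if_pos (by omega)]

lemma y3_2 (n j : ℕ) (hn : 1 ≤ n) (h1 : 2 * n + 0 ≤ j) (h2 : j < 2 * n + 1) :
    y3 n j = ((-2) * (n : ℤ) - 3) := by
  unfold y3; rw [if_neg (by omega), if_neg (by omega), if_pos (by omega)]

lemma y3_3 (n j : ℕ) (hn : 1 ≤ n) (h1 : 2 * n + 1 ≤ j) (h2 : j < 2 * n + 2) :
    y3 n j = (2 * (n : ℤ) + 1) := by
  unfold y3; rw [if_neg (by omega), if_neg (by omega), if_neg (by omega), if_pos (by omega)]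

lemma y3_4e (n j : ℕ) (hn : 1 ≤ n) (h1 : 2 * n + 2 ≤ j) (h2 : j < 4 * n + 2) (h3 : j % 2 = 0) :
    2 * y3 n j = ((-18) * (n : ℤ) - 12) + (j : ℤ) := by
  unfold y3; rw [if_neg (by omega), if_neg (by omega), if_neg (by omega), if_neg (by omega), if_pos (by omega), if_pos (by omega)]; omega

lemma y3_4o (n j : ℕ) (hn : 1 ≤ n) (h1 : 2 * n + 2 ≤ j) (h2 : j < 4 * n + 2) (h3 : j % 2 = 1) :
    2 * y3 n j = (6 * (n : ℤ) + 3) + (j : ℤ) := by
  unfold y3; rw [if_neg (by omega), if_neg (by omega), if_neg (by omega), if_neg (by omega), if_pos (by omega), if_neg (by omega)]; omega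

lemma y3_5 (n j : ℕ) (hn : 1 ≤ n) (h1 : 4 * n + 2 ≤ j) (h2 : j < 4 * n + 3) :
    y3 n j = (2 * (n : ℤ) + 2) := by
  unfold y3; rw [if_neg (by omega), if_neg (by omega), if_neg (by omega), if_neg (by omega), if_neg (by omega)]

lemma s3_0i (n j : ℕ) (hn : 1 ≤ n) (h1 : 0 * n + 0 ≤ j) (h2 : j + 2 < 2 * n) :
    y3 n j + y3 n (nxt (4 * n + 3) j) = ((-2) * (n : ℤ) + 0) + (j : ℤ) := by
  rw [show nxt (4 * n + 3) j = j + 1 from if_neg (by omega)]
  by_cases h : j % 2 = 0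
  · have a := y3_0e n j hn (by omega) (by omega) (by omega)
    have b := y3_0o n (j + 1) hn (by omega) (by omega) (by omega)
    omega
  · have a := y3_0o n j hn (by omega) (by omega) (by omega)
    have b := y3_0e n (j + 1) hn (by omega) (by omega) (by omega)
    omega

lemma s3_0j (n j : ℕ) (hn : 1 ≤ n) (h1 : 2 * n ≤ j + 2) (h2 : j + 1 < 2 * n) :
    y3 n j + y3 n (nxt (4 * n + 3) j) = (0 * (n : ℤ) - 1) := by
  rw [show nxt (4 * n + 3) j = j + 1 from if_neg (by omega)]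
  have a := y3_0e n (j) hn (by omega) (by omega) (by omega)
  have b := y3_1 n (j + 1) hn (by omega) (by omega)
  omega

lemma s3_1j (n j : ℕ) (hn : 1 ≤ n) (h1 : 2 * n ≤ j + 1) (h2 : j < 2 * n + 0) :
    y3 n j + y3 n (nxt (4 * n + 3) j) = ((-8) * (n : ℤ) - 6) := by
  rw [show nxt (4 * n + 3) j = j + 1 from if_neg (by omega)]
  have a := y3_1 n (j) hn (by omega) (by omega)
  have b := y3_2 n (j + 1) hn (by omega) (by omega)
  omega

lemma s3_2j (n j : ℕ) (hn : 1 ≤ n) (h1 : 2 * n + 0 ≤ j) (h2 : j < 2 * n + 1) :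
    y3 n j + y3 n (nxt (4 * n + 3) j) = (0 * (n : ℤ) - 2) := by
  rw [show nxt (4 * n + 3) j = j + 1 from if_neg (by omega)]
  have a := y3_2 n (j) hn (by omega) (by omega)
  have b := y3_3 n (j + 1) hn (by omega) (by omega)
  omega

lemma s3_3j (n j : ℕ) (hn : 1 ≤ n) (h1 : 2 * n + 1 ≤ j) (h2 : j < 2 * n + 2) :
    y3 n j + y3 n (nxt (4 * n + 3) j) = ((-6) * (n : ℤ) - 4) := by
  rw [show nxt (4 * n + 3) j = j + 1 from if_neg (by omega)]
  have a := y3_3 n (j) hn (by omega) (by omega)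
  have b := y3_4e n (j + 1) hn (by omega) (by omega) (by omega)
  omega

lemma s3_4i (n j : ℕ) (hn : 1 ≤ n) (h1 : 2 * n + 2 ≤ j) (h2 : j < 4 * n + 1) :
    y3 n j + y3 n (nxt (4 * n + 3) j) = ((-6) * (n : ℤ) - 4) + (j : ℤ) := by
  rw [show nxt (4 * n + 3) j = j + 1 from if_neg (by omega)]
  by_cases h : j % 2 = 0
  · have a := y3_4e n j hn (by omega) (by omega) (by omega)
    have b := y3_4o n (j + 1) hn (by omega) (by omega) (by omega)
    omega
  · have a := y3_4o n j hn (by omega) (by omega) (by omega)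
    have b := y3_4e n (j + 1) hn (by omega) (by omega) (by omega)
    omega

lemma s3_4j (n j : ℕ) (hn : 1 ≤ n) (h1 : 4 * n + 1 ≤ j) (h2 : j < 4 * n + 2) :
    y3 n j + y3 n (nxt (4 * n + 3) j) = (7 * (n : ℤ) + 4) := by
  rw [show nxt (4 * n + 3) j = j + 1 from if_neg (by omega)]
  have a := y3_4o n (j) hn (by omega) (by omega) (by omega)
  have b := y3_5 n (j + 1) hn (by omega) (by omega)
  omega

lemma s3_5j (n j : ℕ) (hn : 1 ≤ n) (h1 : 4 * n + 2 ≤ j) (h2 : j < 4 * n + 3) :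
    y3 n j + y3 n (nxt (4 * n + 3) j) = (7 * (n : ℤ) + 5) := by
  rw [show nxt (4 * n + 3) j = 0 from if_pos (by omega)]
  have a := y3_5 n (j) hn (by omega) (by omega)
  have b := y3_0e n (0) hn (by omega) (by omega) (by omega)
  omega


lemma nz3 (n : ℕ) (hn : 1 ≤ n) (j : ℕ) (hj : j < (4 * n + 3)) :
    NZ (4 * n + 3) (y3 n j) ∧ NZ (4 * n + 3) (y3 n j + y3 n (nxt (4 * n + 3) j)) := by
  constructor
  · by_cases c0 : j + 1 < 2 * n
    · by_cases h : j % 2 = 0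
      · have a := y3_0e n j hn (by omega) (by omega) (by omega)
        unfold NZ; omega
      · have a := y3_0o n j hn (by omega) (by omega) (by omega)
        unfold NZ; omega
    by_cases c1 : j < 2 * n + 0
    · have a := y3_1 n j hn (by omega) (by omega)
      unfold NZ; omega
    by_cases c2 : j < 2 * n + 1
    · have a := y3_2 n j hn (by omega) (by omega)
      unfold NZ; omega
    by_cases c3 : j < 2 * n + 2
    · have a := y3_3 n j hn (by omega) (by omega)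
      unfold NZ; omega
    by_cases c4 : j < 4 * n + 2
    · by_cases h : j % 2 = 0
      · have a := y3_4e n j hn (by omega) (by omega) (by omega)
        unfold NZ; omega
      · have a := y3_4o n j hn (by omega) (by omega) (by omega)
        unfold NZ; omega
    have a := y3_5 n j hn (by omega) (by omega)
    unfold NZ; omega
  · by_cases c0 : j + 2 < 2 * n
    · have a := s3_0i n j hn (by omega) (by omega)
      unfold NZ; omega
    by_cases c1 : j + 1 < 2 * n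
    · have a := s3_0j n j hn (by omega) (by omega)
      unfold NZ; omega
    by_cases c2 : j < 2 * n + 0
    · have a := s3_1j n j hn (by omega) (by omega)
      unfold NZ; omega
    by_cases c3 : j < 2 * n + 1
    · have a := s3_2j n j hn (by omega) (by omega)
      unfold NZ; omega
    by_cases c4 : j < 2 * n + 2
    · have a := s3_3j n j hn (by omega) (by omega)
      unfold NZ; omega
    by_cases c5 : j < 4 * n + 1
    · have a := s3_4i n j hn (by omega) (by omega)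
      unfold NZ; omega
    by_cases c6 : j < 4 * n + 2
    · have a := s3_4j n j hn (by omega) (by omega)
      unfold NZ; omega
    have a := s3_5j n j hn (by omega) (by omega)
    unfold NZ; omega

lemma cov3 (n : ℕ) (hn : 1 ≤ n) (v : ℕ) (h1 : 1 ≤ v) (h2 : v ≤ 2 * (4 * n + 3)) :
    ∃ j < (4 * n + 3), G (4 * n + 3) v (y3 n j) ∨ G (4 * n + 3) v (y3 n j + y3 n (nxt (4 * n + 3) j)) := by
  by_cases c0 : v ≤ 0 * n + 1
  · obtain ⟨j, hj⟩ : ∃ j, j = 2 * n - (2) := ⟨_, rfl⟩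
    have a := s3_0j n j hn (by omega) (by omega)
    exact ⟨j, by omega, Or.inr (by unfold G; omega)⟩
  by_cases c1 : v ≤ 0 * n + 2
  · obtain ⟨j, hj⟩ : ∃ j, j = 2 * n := ⟨_, rfl⟩
    have a := s3_2j n j hn (by omega) (by omega)
    exact ⟨j, by omega, Or.inr (by unfold G; omega)⟩
  by_cases c2 : v ≤ 2 * n + 0
  · obtain ⟨j, hj⟩ : ∃ j, j = 2 * n - (1 * v) := ⟨_, rfl⟩
    have a := s3_0i n j hn (by omega) (by omega)
    exact ⟨j, by omega, Or.inr (by unfold G; omega)⟩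
  by_cases c3 : v ≤ 2 * n + 1
  · obtain ⟨j, hj⟩ : ∃ j, j = 2 * n + 1 := ⟨_, rfl⟩
    have a := y3_3 n j hn (by omega) (by omega)
    exact ⟨j, by omega, Or.inl (by unfold G; omega)⟩
  by_cases c4 : v ≤ 2 * n + 2
  · obtain ⟨j, hj⟩ : ∃ j, j = 4 * n + 2 := ⟨_, rfl⟩
    have a := y3_5 n j hn (by omega) (by omega)
    exact ⟨j, by omega, Or.inl (by unfold G; omega)⟩
  by_cases c5 : v ≤ 2 * n + 3
  · obtain ⟨j, hj⟩ : ∃ j, j = 2 * n := ⟨_, rfl⟩
    have a := y3_2 n j hn (by omega) (by omega)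
    exact ⟨j, by omega, Or.inl (by unfold G; omega)⟩
  by_cases c6 : v ≤ 4 * n + 2
  · obtain ⟨j, hj⟩ : ∃ j, j = 6 * n + 4 - (1 * v) := ⟨_, rfl⟩
    have a := s3_4i n j hn (by omega) (by omega)
    exact ⟨j, by omega, Or.inr (by unfold G; omega)⟩
  by_cases c7 : v ≤ 5 * n + 2
  · obtain ⟨j, hj⟩ : ∃ j, j = 2 * v - (6 * n + 3) := ⟨_, rfl⟩
    have a := y3_4o n j hn (by omega) (by omega) (by omega)
    exact ⟨j, by omega, Or.inl (by unfold G; omega)⟩
  by_cases c8 : v ≤ 6 * n + 2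
  · obtain ⟨j, hj⟩ : ∃ j, j = 2 * v - (10 * n + 6) := ⟨_, rfl⟩
    have a := y3_0e n j hn (by omega) (by omega) (by omega)
    exact ⟨j, by omega, Or.inl (by unfold G; omega)⟩
  by_cases c9 : v ≤ 6 * n + 3
  · obtain ⟨j, hj⟩ : ∃ j, j = 2 * n - (1) := ⟨_, rfl⟩
    have a := y3_1 n j hn (by omega) (by omega)
    exact ⟨j, by omega, Or.inl (by unfold G; omega)⟩
  by_cases c10 : v ≤ 6 * n + 4
  · obtain ⟨j, hj⟩ : ∃ j, j = 2 * n + 1 := ⟨_, rfl⟩
    have a := s3_3j n j hn (by omega) (by omega)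
    exact ⟨j, by omega, Or.inr (by unfold G; omega)⟩
  by_cases c11 : v ≤ 7 * n + 3
  · obtain ⟨j, hj⟩ : ∃ j, j = 14 * n + 7 - (2 * v) := ⟨_, rfl⟩
    have a := y3_0o n j hn (by omega) (by omega) (by omega)
    exact ⟨j, by omega, Or.inl (by unfold G; omega)⟩
  by_cases c12 : v ≤ 7 * n + 4
  · obtain ⟨j, hj⟩ : ∃ j, j = 1 * v - (3 * n + 3) := ⟨_, rfl⟩
    have a := s3_4j n j hn (by omega) (by omega)
    exact ⟨j, by omega, Or.inr (by unfold G; omega)⟩
  by_cases c13 : v ≤ 7 * n + 5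
  · obtain ⟨j, hj⟩ : ∃ j, j = 1 * v - (3 * n + 3) := ⟨_, rfl⟩
    have a := s3_5j n j hn (by omega) (by omega)
    exact ⟨j, by omega, Or.inr (by unfold G; omega)⟩
  by_cases c14 : v ≤ 8 * n + 5
  · obtain ⟨j, hj⟩ : ∃ j, j = 18 * n + 12 - (2 * v) := ⟨_, rfl⟩
    have a := y3_4e n j hn (by omega) (by omega) (by omega)
    exact ⟨j, by omega, Or.inl (by unfold G; omega)⟩
  obtain ⟨j, hj⟩ : ∃ j, j = 2 * n - (1) := ⟨_, rfl⟩
  have a := s3_1j n j hn (by omega) (by omega)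
  exact ⟨j, by omega, Or.inr (by unfold G; omega)⟩

lemma sum0 (m : ℕ) (hm : 1 ≤ m) : ∑ j ∈ range (4 * (m + 1) + 0), y0 (m + 1) j = 2 * ((m : ℤ) + 1) ^ 2 := by
  have h0 : ∑ j ∈ range (2 * (m + 0)), y0 (m + 1) j =
      ((m + 0 : ℕ) : ℤ) * (((5) * (m : ℤ) + (7)) + ((-7) * (m : ℤ) + (-8))) + ((m + 0 : ℕ) : ℤ) * (((m + 0 : ℕ) : ℤ) - 1) := by
    rw [← segP]
    refine sum_congr rfl fun j hj => ?_
    have hj' := mem_range.mp hj
    split_ifs with h
    · have a := y0_0e (m + 1) j (by omega) (by omega) (by omega) (by omega)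
      omega
    · have a := y0_0o (m + 1) j (by omega) (by omega) (by omega) (by omega)
      omega
  have h1 : y0 (m + 1) (2 * (m + 0)) = ((6) * (m : ℤ) + (7)) := by
    have a := y0_0e (m + 1) (2 * (m + 0)) (by omega) (by omega) (by omega) (by omega)
    omega
  have h2 : ∑ j ∈ range (2 * (m + 0)), y0 (m + 1) (2 * (m + 0) + 1 + j) =
      ((m + 0 : ℕ) : ℤ) * (((8) * (m : ℤ) + (8)) + ((-4) * (m : ℤ) + (-5))) - ((m + 0 : ℕ) : ℤ) * (((m + 0 : ℕ) : ℤ) - 1) := by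
    rw [← segM]
    refine sum_congr rfl fun j hj => ?_
    have hj' := mem_range.mp hj
    split_ifs with h
    · have a := y0_1e (m + 1) (2 * (m + 0) + 1 + j) (by omega) (by omega) (by omega) (by omega)
      omega
    · have a := y0_1o (m + 1) (2 * (m + 0) + 1 + j) (by omega) (by omega) (by omega) (by omega)
      omega
  have h3 : y0 (m + 1) (2 * (m + 0) + 1 + 2 * (m + 0)) = ((-6) * (m : ℤ) + (-8)) := by
    have a := y0_2 (m + 1) (2 * (m + 0) + 1 + 2 * (m + 0)) (by omega) (by omega) (by omega)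
    omega
  have h4 : y0 (m + 1) (2 * (m + 0) + 1 + 2 * (m + 0) + 1) = ((2) * (m : ℤ) + (4)) := by
    have a := y0_3 (m + 1) (2 * (m + 0) + 1 + 2 * (m + 0) + 1) (by omega) (by omega) (by omega)
    omega
  have h5 : y0 (m + 1) (2 * (m + 0) + 1 + 2 * (m + 0) + 1 + 1) = ((0) * (m : ℤ) + (-1)) := by
    have a := y0_4 (m + 1) (2 * (m + 0) + 1 + 2 * (m + 0) + 1 + 1) (by omega) (by omega) (by omega)
    omega
  rw [show 4 * (m + 1) + 0 = 2 * (m + 0) + 1 + 2 * (m + 0) + 1 + 1 + 1 by ring, sum_range_succ, sum_range_succ, sum_range_succ, sum_range_add, sum_range_succ, h0, h1, h2, h3, h4, h5]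
  push_cast; ring

lemma Q0 (n : ℕ) (hn : 2 ≤ n) : Q (4 * n + 0) := by
  obtain ⟨m, rfl⟩ : ∃ m, n = m + 1 := ⟨n - 1, by omega⟩
  refine finish _ (y0 (m + 1)) (fun j hj => nz0 _ hn j hj) (fun v h1 h2 => cov0 _ hn v h1 h2) (128) (16 * ((m : ℤ) + 1) + (-1)) ?_
  rw [sum0 m (by omega)]; push_cast; ring

lemma sum1 (m : ℕ) (hm : 1 ≤ m) : ∑ j ∈ range (4 * (m + 1) + 1), y1 (m + 1) j = -4 * ((m : ℤ) + 1) ^ 2 - 14 * ((m : ℤ) + 1) - 4 := by
  have h0 : ∑ j ∈ range (2 * (m + 0)), y1 (m + 1) j =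
      ((m + 0 : ℕ) : ℤ) * (((5) * (m : ℤ) + (6)) + ((-7) * (m : ℤ) + (-7))) + ((m + 0 : ℕ) : ℤ) * (((m + 0 : ℕ) : ℤ) - 1) := by
    rw [← segP]
    refine sum_congr rfl fun j hj => ?_
    have hj' := mem_range.mp hj
    split_ifs with h
    · have a := y1_0e (m + 1) j (by omega) (by omega) (by omega) (by omega)
      omega
    · have a := y1_0o (m + 1) j (by omega) (by omega) (by omega) (by omega)
      omega
  have h1 : y1 (m + 1) (2 * (m + 0)) = ((-8) * (m : ℤ) + (-10)) := by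
    have a := y1_1 (m + 1) (2 * (m + 0)) (by omega) (by omega) (by omega)
    omega
  have h2 : y1 (m + 1) (2 * (m + 0) + 1) = ((-2) * (m : ℤ) + (-5)) := by
    have a := y1_2 (m + 1) (2 * (m + 0) + 1) (by omega) (by omega) (by omega)
    omega
  have h3 : ∑ j ∈ range (2 * (m + 0)), y1 (m + 1) (2 * (m + 0) + 1 + 1 + j) =
      ((m + 0 : ℕ) : ℤ) * (((-8) * (m : ℤ) + (-9)) + ((4) * (m : ℤ) + (5))) + ((m + 0 : ℕ) : ℤ) * (((m + 0 : ℕ) : ℤ) - 1) := by
    rw [← segP]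
    refine sum_congr rfl fun j hj => ?_
    have hj' := mem_range.mp hj
    split_ifs with h
    · have a := y1_3e (m + 1) (2 * (m + 0) + 1 + 1 + j) (by omega) (by omega) (by omega) (by omega)
      omega
    · have a := y1_3o (m + 1) (2 * (m + 0) + 1 + 1 + j) (by omega) (by omega) (by omega) (by omega)
      omega
  have h4 : y1 (m + 1) (2 * (m + 0) + 1 + 1 + 2 * (m + 0)) = ((-5) * (m : ℤ) + (-5)) := by
    have a := y1_4 (m + 1) (2 * (m + 0) + 1 + 1 + 2 * (m + 0)) (by omega) (by omega) (by omega)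
    omega
  have h5 : y1 (m + 1) (2 * (m + 0) + 1 + 1 + 2 * (m + 0) + 1) = ((-2) * (m : ℤ) + (-4)) := by
    have a := y1_5 (m + 1) (2 * (m + 0) + 1 + 1 + 2 * (m + 0) + 1) (by omega) (by omega) (by omega)
    omega
  have h6 : y1 (m + 1) (2 * (m + 0) + 1 + 1 + 2 * (m + 0) + 1 + 1) = ((2) * (m : ℤ) + (2)) := by
    have a := y1_6 (m + 1) (2 * (m + 0) + 1 + 1 + 2 * (m + 0) + 1 + 1) (by omega) (by omega) (by omega)
    omega
  rw [show 4 * (m + 1) + 1 = 2 * (m + 0) + 1 + 1 + 2 * (m + 0) + 1 + 1 + 1 by ring, sum_range_succ, sum_range_succ, sum_range_succ, sum_range_add, sum_range_succ, sum_range_succ, h0, h1, h2, h3, h4, h5, h6]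
  push_cast; ring

lemma Q1 (n : ℕ) (hn : 2 ≤ n) : Q (4 * n + 1) := by
  obtain ⟨m, rfl⟩ : ∃ m, n = m + 1 := ⟨n - 1, by omega⟩
  refine finish _ (y1 (m + 1)) (fun j hj => nz1 _ hn j hj) (fun v h1 h2 => cov1 _ hn v h1 h2) (-64) (16 * ((m : ℤ) + 1) + (51)) ?_
  rw [sum1 m (by omega)]; push_cast; ring

lemma sum2 (m : ℕ) (hm : 0 ≤ m) : ∑ j ∈ range (4 * (m + 1) + 2), y2 (m + 1) j = 2 * ((m : ℤ) + 1) ^ 2 + 10 * ((m : ℤ) + 1) + 5 := by
  have h0 : ∑ j ∈ range (2 * (m + 0)), y2 (m + 1) j =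
      ((m + 0 : ℕ) : ℤ) * (((5) * (m : ℤ) + (9)) + ((-7) * (m : ℤ) + (-10))) + ((m + 0 : ℕ) : ℤ) * (((m + 0 : ℕ) : ℤ) - 1) := by
    rw [← segP]
    refine sum_congr rfl fun j hj => ?_
    have hj' := mem_range.mp hj
    split_ifs with h
    · have a := y2_0e (m + 1) j (by omega) (by omega) (by omega) (by omega)
      omega
    · have a := y2_0o (m + 1) j (by omega) (by omega) (by omega) (by omega)
      omega
  have h1 : y2 (m + 1) (2 * (m + 0)) = ((6) * (m : ℤ) + (9)) := by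
    have a := y2_0e (m + 1) (2 * (m + 0)) (by omega) (by omega) (by omega) (by omega)
    omega
  have h2 : y2 (m + 1) (2 * (m + 0) + 1) = ((2) * (m : ℤ) + (2)) := by
    have a := y2_1 (m + 1) (2 * (m + 0) + 1) (by omega) (by omega) (by omega)
    omega
  have h3 : y2 (m + 1) (2 * (m + 0) + 1 + 1) = ((2) * (m : ℤ) + (3)) := by
    have a := y2_2 (m + 1) (2 * (m + 0) + 1 + 1) (by omega) (by omega) (by omega)
    omega
  have h4 : y2 (m + 1) (2 * (m + 0) + 1 + 1 + 1) = ((6) * (m : ℤ) + (10)) := by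
    have a := y2_3 (m + 1) (2 * (m + 0) + 1 + 1 + 1) (by omega) (by omega) (by omega)
    omega
  have h5 : ∑ j ∈ range (2 * (m + 0)), y2 (m + 1) (2 * (m + 0) + 1 + 1 + 1 + 1 + j) =
      ((m + 0 : ℕ) : ℤ) * (((-4) * (m : ℤ) + (-6)) + ((8) * (m : ℤ) + (10))) - ((m + 0 : ℕ) : ℤ) * (((m + 0 : ℕ) : ℤ) - 1) := by
    rw [← segM]
    refine sum_congr rfl fun j hj => ?_
    have hj' := mem_range.mp hj
    split_ifs with h
    · have a := y2_4e (m + 1) (2 * (m + 0) + 1 + 1 + 1 + 1 + j) (by omega) (by omega) (by omega) (by omega)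
      omega
    · have a := y2_4o (m + 1) (2 * (m + 0) + 1 + 1 + 1 + 1 + j) (by omega) (by omega) (by omega) (by omega)
      omega
  have h6 : y2 (m + 1) (2 * (m + 0) + 1 + 1 + 1 + 1 + 2 * (m + 0)) = ((-5) * (m : ℤ) + (-6)) := by
    have a := y2_4e (m + 1) (2 * (m + 0) + 1 + 1 + 1 + 1 + 2 * (m + 0)) (by omega) (by omega) (by omega) (by omega)
    omega
  have h7 : y2 (m + 1) (2 * (m + 0) + 1 + 1 + 1 + 1 + 2 * (m + 0) + 1) = ((0) * (m : ℤ) + (-1)) := by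
    have a := y2_5 (m + 1) (2 * (m + 0) + 1 + 1 + 1 + 1 + 2 * (m + 0) + 1) (by omega) (by omega) (by omega)
    omega
  rw [show 4 * (m + 1) + 2 = 2 * (m + 0) + 1 + 1 + 1 + 1 + 2 * (m + 0) + 1 + 1 by ring, sum_range_succ, sum_range_succ, sum_range_add, sum_range_succ, sum_range_succ, sum_range_succ, sum_range_succ, h0, h1, h2, h3, h4, h5, h6, h7]
  push_cast; ring

lemma Q2 (n : ℕ) (hn : 1 ≤ n) : Q (4 * n + 2) := by
  obtain ⟨m, rfl⟩ : ∃ m, n = m + 1 := ⟨n - 1, by omega⟩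
  refine finish _ (y2 (m + 1)) (fun j hj => nz2 _ hn j hj) (fun v h1 h2 => cov2 _ hn v h1 h2) (128) (16 * ((m : ℤ) + 1) + (71)) ?_
  rw [sum2 m (by omega)]; push_cast; ring

lemma sum3 (m : ℕ) (hm : 0 ≤ m) : ∑ j ∈ range (4 * (m + 1) + 3), y3 (m + 1) j = -4 * ((m : ℤ) + 1) ^ 2 - 2 * ((m : ℤ) + 1) + 1 := by
  have h0 : ∑ j ∈ range (2 * (m + 0)), y3 (m + 1) j =
      ((m + 0 : ℕ) : ℤ) * (((5) * (m : ℤ) + (8)) + ((-7) * (m : ℤ) + (-10))) + ((m + 0 : ℕ) : ℤ) * (((m + 0 : ℕ) : ℤ) - 1) := by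
    rw [← segP]
    refine sum_congr rfl fun j hj => ?_
    have hj' := mem_range.mp hj
    split_ifs with h
    · have a := y3_0e (m + 1) j (by omega) (by omega) (by omega) (by omega)
      omega
    · have a := y3_0o (m + 1) j (by omega) (by omega) (by omega) (by omega)
      omega
  have h1 : y3 (m + 1) (2 * (m + 0)) = ((6) * (m : ℤ) + (8)) := by
    have a := y3_0e (m + 1) (2 * (m + 0)) (by omega) (by omega) (by omega) (by omega)
    omega
  have h2 : y3 (m + 1) (2 * (m + 0) + 1) = ((-6) * (m : ℤ) + (-9)) := by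
    have a := y3_1 (m + 1) (2 * (m + 0) + 1) (by omega) (by omega) (by omega)
    omega
  have h3 : y3 (m + 1) (2 * (m + 0) + 1 + 1) = ((-2) * (m : ℤ) + (-5)) := by
    have a := y3_2 (m + 1) (2 * (m + 0) + 1 + 1) (by omega) (by omega) (by omega)
    omega
  have h4 : y3 (m + 1) (2 * (m + 0) + 1 + 1 + 1) = ((2) * (m : ℤ) + (3)) := by
    have a := y3_3 (m + 1) (2 * (m + 0) + 1 + 1 + 1) (by omega) (by omega) (by omega)
    omega
  have h5 : ∑ j ∈ range (2 * (m + 1)), y3 (m + 1) (2 * (m + 0) + 1 + 1 + 1 + 1 + j) =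
      ((m + 1 : ℕ) : ℤ) * (((-8) * (m : ℤ) + (-13)) + ((4) * (m : ℤ) + (7))) + ((m + 1 : ℕ) : ℤ) * (((m + 1 : ℕ) : ℤ) - 1) := by
    rw [← segP]
    refine sum_congr rfl fun j hj => ?_
    have hj' := mem_range.mp hj
    split_ifs with h
    · have a := y3_4e (m + 1) (2 * (m + 0) + 1 + 1 + 1 + 1 + j) (by omega) (by omega) (by omega) (by omega)
      omega
    · have a := y3_4o (m + 1) (2 * (m + 0) + 1 + 1 + 1 + 1 + j) (by omega) (by omega) (by omega) (by omega)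
      omega
  have h6 : y3 (m + 1) (2 * (m + 0) + 1 + 1 + 1 + 1 + 2 * (m + 1)) = ((2) * (m : ℤ) + (4)) := by
    have a := y3_5 (m + 1) (2 * (m + 0) + 1 + 1 + 1 + 1 + 2 * (m + 1)) (by omega) (by omega) (by omega)
    omega
  rw [show 4 * (m + 1) + 3 = 2 * (m + 0) + 1 + 1 + 1 + 1 + 2 * (m + 1) + 1 by ring, sum_range_succ, sum_range_add, sum_range_succ, sum_range_succ, sum_range_succ, sum_range_succ, h0, h1, h2, h3, h4, h5, h6]
  push_cast; ring

lemma Q3 (n : ℕ) (hn : 1 ≤ n) : Q (4 * n + 3) := by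
  obtain ⟨m, rfl⟩ : ∃ m, n = m + 1 := ⟨n - 1, by omega⟩
  refine finish _ (y3 (m + 1)) (fun j hj => nz3 _ hn j hj) (fun v h1 h2 => cov3 _ hn v h1 h2) (-64) (16 * ((m : ℤ) + 1) + (-5)) ?_
  rw [sum3 m (by omega)]; push_cast; ring

lemma Qa : Q 3 := by
  refine finish 3 (fun j => [1, -6, 2].getD j 0) ?_ ?_ 4 (-1) (by decide)
  · intro j hj; interval_cases j <;> simp [NZ, nxt]
  · intro v h1 h2
    have : ∀ v ≤ 6, 1 ≤ v → ∃ j < 3, G 3 v ([(1 : ℤ), -6, 2].getD j 0) ∨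
        G 3 v ([(1 : ℤ), -6, 2].getD j 0 + [(1 : ℤ), -6, 2].getD (nxt 3 j) 0) := by
      unfold G; decide
    exact this v h2 h1

lemma Qb : Q 4 := by
  refine finish 4 (fun j => [1, -8, 2, -5].getD j 0) ?_ ?_ 5 (-3) (by decide)
  · intro j hj; interval_cases j <;> simp [NZ, nxt]
  · intro v h1 h2
    have : ∀ v ≤ 8, 1 ≤ v → ∃ j < 4, G 4 v ([(1 : ℤ), -8, 2, -5].getD j 0) ∨
        G 4 v ([(1 : ℤ), -8, 2, -5].getD j 0 + [(1 : ℤ), -8, 2, -5].getD (nxt 4 j) 0) := by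
      unfold G; decide
    exact this v h2 h1

lemma Qc : Q 5 := by
  refine finish 5 (fun j => [4, -3, 5, 7, 6].getD j 0) ?_ ?_ 10 9 (by decide)
  · intro j hj; interval_cases j <;> simp [NZ, nxt]
  · intro v h1 h2
    have : ∀ v ≤ 10, 1 ≤ v → ∃ j < 5, G 5 v ([(4 : ℤ), -3, 5, 7, 6].getD j 0) ∨
        G 5 v ([(4 : ℤ), -3, 5, 7, 6].getD j 0 + [(4 : ℤ), -3, 5, 7, 6].getD (nxt 5 j) 0) := by
      unfold G; decide
    exact this v h2 h1

theorem result (k : ℕ) (hk : 2 < k) :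
    ∃ x : ℕ → ZMod (4 * k + 1), (∀ i < k, x i ≠ 0) ∧
      {z : ZMod (4 * k + 1) | z ≠ 0} =
        (⋃ i ∈ Set.Iio k, {x i, -x i, x i + x ((i + 1) % k), -(x i + x ((i + 1) % k))}) ∧
      Nat.gcd (∑ i ∈ range k, x i).val (4 * k + 1) = 1 := by
  change Q k
  by_cases h3 : k = 3
  · rw [h3]; exact Qa
  by_cases h4 : k = 4
  · rw [h4]; exact Qb
  by_cases h5 : k = 5
  · rw [h5]; exact Qc
  obtain ⟨n, hn⟩ : ∃ n, k = 4 * n + 0 ∨ k = 4 * n + 1 ∨ k = 4 * n + 2 ∨ k = 4 * n + 3 :=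
    ⟨k / 4, by omega⟩
  rcases hn with h | h | h | h <;> rw [h]
  · exact Q0 n (by omega)
  · exact Q1 n (by omega)
  · exact Q2 n (by omega)
  · exact Q3 n (by omega)

end Pool.Agent.Results.MP_a9ea17_co.Full
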